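import Pool.Agent.W965.TFP.Main

/-!
# `p/q`-flow-pairs: consequences of the pairing theorem
-/

namespace Pool.Agent.W965.TFP
open Finset Pool.Agent.H160R2.HF Pool.Agent.H160R2.HF.OrGraph Pool.Agent.H884R2.HFP

variable {V E : Type*} [Fintype V] [Fintype E] [DecidableEq V] [DecidableEq E] (G : OrGraph V E)

/-- Cyclically `k`-edge-connected: an edge cut with a cycle on both sides has at least `k` edges. -/
def CyclicallyEdgeConnected (k : ℕ) : Prop :=
  ∀ X : Finset V, G.HasCycleIn X → G.HasCycleIn Xᶜ → k ≤ (G.cut X).card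

/-- Cuts separating two odd circuits have many edges. -/
theorem exists_pair_of_separating (hc : G.Cubic) (F : Finset E) (hF : G.IsTwoFactor F)
    (p q s m : ℕ) (hp : 0 < p) (hpq : q ≤ 2 * p) (ht : G.oddCount F ≤ 2 * s)
    (hm : 2 * ((q * s - 1) / p) + s < m) (hs : OddSeparating G F m) :
    ∃ φ₂ φ : E → ℤ, IsFlowPair G p q φ₂ φ ∧ ∀ e, φ₂ e ≠ 0 ↔ e ∈ F := by
  classical
  obtain ⟨U, hU, hUc⟩ := exists_transversal G F
  obtain ⟨n, hn⟩ := transversal_even G hc F hF U hU
  obtain ⟨τ, hτ⟩ := exists_pairing n U (by omega)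
  apply exists_pair_of_transversal G hc F hF U hU τ hτ p q
  intro X y hcy hlt
  have h1 := two_sep_le U τ hτ X
  have hrs : sep U τ X ≤ s := by omega
  have hqr : q * sep U τ X ≤ q * s := Nat.mul_le_mul_left q hrs
  have hy : y ≤ (q * s - 1) / p := by
    rw [Nat.le_div_iff_mul_le hp, Nat.mul_comm y p]
    omega
  have hX : (G.cut X ∩ F).card < 2 * sep U τ X := by
    have h2 : p * (G.cut X ∩ F).card ≤ p * y := Nat.mul_le_mul_left p hcy
    have h3 : q * sep U τ X ≤ 2 * p * sep U τ X := Nat.mul_le_mul_right _ hpq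
    have h4 : p * (G.cut X ∩ F).card < p * (2 * sep U τ X) := by
      calc p * (G.cut X ∩ F).card ≤ p * y := h2
        _ < q * sep U τ X := hlt
        _ ≤ 2 * p * sep U τ X := h3
        _ = p * (2 * sep U τ X) := by ring
    exact Nat.lt_of_mul_lt_mul_left h4
  have hin := exists_comp_inside G F hF X (U.filter (fun u => u ∈ X ∧ τ u ∉ X)) (by
    intro u hu; exact (Finset.mem_filter.1 hu).2.1) (by
    intro u hu v hv huv
    exact hU.inj G u (Finset.mem_filter.1 hu).1 v (Finset.mem_filter.1 hv).1 huv) hX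
  have hcompl : G.cut Xᶜ = G.cut X := by
    ext e; simp [cut, not_iff_not]
  have hout := exists_comp_inside G F hF Xᶜ (U.filter (fun u => u ∉ X ∧ τ u ∈ X)) (by
    intro u hu; simpa using (Finset.mem_filter.1 hu).2.1) (by
    intro u hu v hv huv
    exact hU.inj G u (Finset.mem_filter.1 hu).1 v (Finset.mem_filter.1 hv).1 huv) (by
    rw [hcompl, sep_compl U τ hτ X]; exact hX)
  obtain ⟨u, hu1, hu2⟩ := hin
  obtain ⟨w, hw1, hw2⟩ := hout
  have hodd : ∀ u ∈ U, Odd ((G.sub F).connectedComponentMk u).supp.ncard := fun u hu =>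
    (hU.odd_iff G u).2 ⟨u, hu, SimpleGraph.Reachable.refl u⟩
  have := hs X ⟨u, (Finset.mem_filter.1 hu1).2.1, hodd u (Finset.mem_filter.1 hu1).1, hu2⟩
    ⟨w, (Finset.mem_filter.1 hw1).2.1, hodd w (Finset.mem_filter.1 hw1).1,
      fun v hv => by simpa using hw2 v hv⟩
  omega

/-- A component of a 2-factor inside `X` gives a cycle in `X`. -/
theorem hasCycleIn_of_comp (F : Finset E) (hF : G.IsTwoFactor F) (X : Finset V) (u : V)
    (hu : u ∈ X) (h : ∀ v, (G.sub F).Reachable u v → v ∈ X) : G.HasCycleIn X := by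
  classical
  have hside : ∀ e ∈ F, (G.sub F).Reachable (G.t e) (G.h e) := by
    intro e he
    by_cases h5 : G.t e = G.h e
    · rw [h5]
    · apply SimpleGraph.Adj.reachable
      rw [sub, SimpleGraph.fromRel_adj]
      exact ⟨h5, Or.inl ⟨e, he, rfl, rfl⟩⟩
  have hcut : G.cut (X.filter (fun v => (G.sub F).Reachable u v)) ∩ F = ∅ := by
    ext e
    simp only [cut, Finset.mem_inter, Finset.mem_filter, Finset.mem_univ, true_and,
      Finset.notMem_empty, iff_false]
    rintro ⟨h1, he⟩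
    have h2 := hside e he
    apply h1
    exact ⟨fun h3 => ⟨h _ (h3.2.trans h2), h3.2.trans h2⟩,
      fun h3 => ⟨h _ (h3.2.trans h2.symm), h3.2.trans h2.symm⟩⟩
  obtain ⟨C, hC1, hC2, hC3⟩ := G.hasCycleIn_of_cut F hF _ hcut
    ⟨u, Finset.mem_filter.2 ⟨hu, SimpleGraph.Reachable.refl u⟩⟩
  exact ⟨C, hC1, fun e he => ⟨(Finset.mem_filter.1 (hC2 e he).1).1,
    (Finset.mem_filter.1 (hC2 e he).2).1⟩, hC3⟩

theorem oddSeparating_of_cyclic (F : Finset E) (hF : G.IsTwoFactor F) (k : ℕ)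
    (hk : CyclicallyEdgeConnected G k) : OddSeparating G F k := by
  rintro X ⟨u, hu, _, hu2⟩ ⟨w, hw, _, hw2⟩
  exact hk X (hasCycleIn_of_comp G F hF X u hu hu2)
    (hasCycleIn_of_comp G F hF Xᶜ w (by simpa using hw) (fun v hv => by simpa using hw2 v hv))

/-- The `s/(s+1)`-flow-pairs. -/
theorem exists_pair_of_cyclic (hc : G.Cubic) (F : Finset E) (hF : G.IsTwoFactor F)
    (s : ℕ) (hs : 0 < s) (ht : G.oddCount F ≤ 2 * s)
    (hk : CyclicallyEdgeConnected G (3 * s + 1)) :
    ∃ φ₂ φ : E → ℤ, IsFlowPair G s (s + 1) φ₂ φ ∧ ∀ e, φ₂ e ≠ 0 ↔ e ∈ F := by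
  apply exists_pair_of_separating G hc F hF s (s + 1) s (3 * s + 1) hs (by omega) ht
  · have h1 : (s + 1) * s - 1 < (s + 1) * s := by
      have : 0 < (s + 1) * s := by positivity
      omega
    have h2 : ((s + 1) * s - 1) / s < s + 1 := by
      rw [Nat.div_lt_iff_lt_mul hs]
      exact h1
    omega
  · exact oddSeparating_of_cyclic G F hF _ hk

end Pool.Agent.W965.TFP
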