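import Pool.Agent.W965.TFP.FourB
import Pool.Agent.W965.TFP.Final

/-!
# Cubic graphs with a 2-factor having at most four odd circuits: end
-/

namespace Pool.Agent.W965.TFP.Odd
open Pool.Agent.W965.TFP
open Finset Pool.Agent.H160R2.HF Pool.Agent.H160R2.HF.OrGraph Pool.Agent.H884R2.HFP

variable {V E : Type*} [Fintype V] [Fintype E] [DecidableEq V] [DecidableEq E] (G : OrGraph V E)

/-- The structure of a cut violating the Hoffman condition. -/
theorem bad_struct (F : Finset E) (hF : G.IsTwoFactor F)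
    (hd : DisjointSix G F) (B : Finset E) (hBF : B ⊆ F) (ψ : E → ℤ)
    (hψ1 : ∀ e, (e ∈ Fᶜ → ψ e = 1 ∨ ψ e = -1) ∧ (e ∉ Fᶜ → ψ e = 0)) (X : Finset V) (n : ℤ)
    (hb : |∑ v ∈ X, net G.t G.h ψ v| ≤ (G.cut X ∩ B).card + |n|) (hn : |n| ≤ 2)
    (hne : n ≠ 0 → X.Nonempty ∧ Xᶜ.Nonempty)
    (hfail : ¬ (((2 : ℕ) : ℤ) + 2 * (3 : ℕ)) * ∑ v ∈ X, net G.t G.h ψ v ≤
      2 * (((2 : ℕ) : ℤ) + (3 : ℕ)) * (G.cut X ∩ F).card + ((2 : ℕ) : ℤ) * (G.cut X ∩ Fᶜ).card) :
    (G.cut X).card = 6 ∧ (G.cut X ∩ F).card ≤ 2 ∧ G.cut X ∩ F ⊆ B ∧ |n| = 2 := by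
  classical
  have hm := G.abs_net_le ψ Fᶜ (fun e he => by
    rcases (hψ1 e).1 he with h | h <;> rw [h] <;> simp) (fun e he => (hψ1 e).2 he) X
  have hpar := net_parity G ψ Fᶜ (fun e he => (hψ1 e).1 he) (fun e he => (hψ1 e).2 he) X
  have hbf : (G.cut X ∩ B).card ≤ (G.cut X ∩ F).card :=
    Finset.card_le_card (Finset.inter_subset_inter_left hBF)
  have hhs := G.handshake F X
  rw [Finset.sum_congr rfl (fun v _ => hF v)] at hhs
  simp only [Finset.sum_const, smul_eq_mul] at hhs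
  have hcard := cut_card G F X
  have hdis : n ≠ 0 → (G.cut X ∩ F).card = 0 → 6 ≤ (G.cut X).card := fun h h0 =>
    six_le_of_disjoint G F hd X h0 (hne h).1 (hne h).2
  generalize (∑ v ∈ X, net G.t G.h ψ v) = ν at *
  have hn0 : (0 : ℤ) ≤ |n| := abs_nonneg n
  have hdis' : 1 ≤ |n| → (G.cut X ∩ F).card = 0 → 6 ≤ (G.cut X).card := by
    intro h
    apply hdis
    intro h0
    rw [h0] at h
    simp at h
  generalize |n| = N at *
  rw [abs_le] at hm hb
  push_cast at hfail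
  have hkey : (G.cut X).card = 6 ∧ (G.cut X ∩ F).card ≤ 2 ∧
      (G.cut X ∩ B).card = (G.cut X ∩ F).card ∧ N = 2 := by
    by_cases h0 : (G.cut X ∩ F).card = 0
    · by_cases h1 : 1 ≤ N
      · have := hdis' h1 h0
        omega
      · omega
    · omega
  refine ⟨hkey.1, hkey.2.1, ?_, hkey.2.2.2⟩
  have h1 : G.cut X ∩ B = G.cut X ∩ F :=
    Finset.eq_of_subset_of_card_le (Finset.inter_subset_inter_left hBF) hkey.2.2.1.ge
  rw [← h1]
  exact Finset.inter_subset_right

/-- The case in which the first orientation has `a, c` of one sign and `b, d` of the other. -/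
theorem four_aux (hc : G.Cubic) (F : Finset E) (hF : G.IsTwoFactor F)
    (h7 : OddCyclicSeven G) (hd6 : DisjointSix G F) (a b c d : V) (hab : a ≠ b) (hac : a ≠ c) (had : a ≠ d)
    (hbc : b ≠ c) (hbd : b ≠ d) (hcd : c ≠ d)
    (hU : ∀ u ∈ ({a, b, c, d} : Finset V), ∀ v ∈ ({a, b, c, d} : Finset V),
      (G.sub F).Reachable u v → u = v) (B : Finset E) (hBF : B ⊆ F)
    (hB : ∀ v, G.deg B v = if v ∈ ({a, b, c, d} : Finset V) then 0 else 1)
    (ψ : E → ℤ) (σ : V → ℤ)
    (hψ : ∀ e, (e ∈ Fᶜ → ψ e = 1 ∨ ψ e = -1) ∧ (e ∉ Fᶜ → ψ e = 0))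
    (h0 : ∀ u, u ∉ ({a, b, c, d} : Finset V) → σ u = 0)
    (ha : σ a = 1 ∨ σ a = -1) (hb : σ b = -σ a) (hcc : σ c = σ a) (hd : σ d = -σ a)
    (hbound : ∀ X : Finset V, |∑ v ∈ X, net G.t G.h ψ v| ≤
      (G.cut X ∩ B).card + |∑ v ∈ X, σ v|) :
    ∃ φ₂ φ : E → ℤ, IsFlowPair G 2 3 φ₂ φ ∧ ∀ e, φ₂ e ≠ 0 ↔ e ∈ F := by
  classical
  have sum4 := sum_four a b c d hab hac had hbc hbd hcd
  have cnt4 := count_four a b c d hab hac had hbc hbd hcd
  by_cases hX : ∀ X : Finset V, (((2 : ℕ) : ℤ) + 2 * (3 : ℕ)) * ∑ v ∈ X, net G.t G.h ψ v ≤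
      2 * (((2 : ℕ) : ℤ) + (3 : ℕ)) * (G.cut X ∩ F).card + ((2 : ℕ) : ℤ) * (G.cut X ∩ Fᶜ).card
  · exact pair_of_orientation G F hF ψ hψ 2 3 hX
  push Not at hX
  obtain ⟨X, hX⟩ := hX
  -- the second orientation
  obtain ⟨ψ', σ', hψ', hσ', h0', hbound'⟩ := exists_orientation_signs G Fᶜ B
    (Finset.disjoint_of_subset_right hBF disjoint_compl_left) (deg_compl G hc F hF)
    ({a, b, c, d} : Finset V) hB
    (fun v => if v = a then c else if v = c then a else if v = b then d else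
      if v = d then b else v) (by
      intro u hu
      simp only [Finset.mem_insert, Finset.mem_singleton] at hu
      rcases hu with rfl | rfl | rfl | rfl <;>
        simp [hab, hac, had, hbc, hbd, hcd, hab.symm, hac.symm, had.symm, hbc.symm, hbd.symm,
          hcd.symm])
  have ha' := (hσ' a (by simp)).1
  have hb' := (hσ' b (by simp)).1
  have hc' : σ' c = -σ' a := by
    have := (hσ' a (by simp)).2
    simpa using this
  have hd' : σ' d = -σ' b := by
    have := (hσ' b (by simp)).2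
    simpa [hab.symm, hbc] using this
  by_cases hY : ∀ X : Finset V, (((2 : ℕ) : ℤ) + 2 * (3 : ℕ)) * ∑ v ∈ X, net G.t G.h ψ' v ≤
      2 * (((2 : ℕ) : ℤ) + (3 : ℕ)) * (G.cut X ∩ F).card + ((2 : ℕ) : ℤ) * (G.cut X ∩ Fᶜ).card
  · exact pair_of_orientation G F hF ψ' hψ' 2 3 hY
  push Not at hY
  obtain ⟨Y, hY⟩ := hY
  exfalso
  obtain ⟨x1, x2, x3, x4⟩ := bad_struct G F hF hd6 B hBF ψ hψ X (∑ v ∈ X, σ v) (hbound X) (by
      rw [sum4 σ h0 X, hb, hcc, hd]
      rcases ha with h | h <;> rw [h] <;> split_ifs <;> norm_num) (by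
      intro hne
      constructor
      · by_contra hcon
        rw [Finset.not_nonempty_iff_eq_empty] at hcon
        apply hne
        rw [hcon]; simp
      · by_contra hcon
        rw [Finset.not_nonempty_iff_eq_empty, Finset.compl_eq_empty_iff] at hcon
        apply hne
        rw [sum4 σ h0 X, hb, hcc, hd, hcon]
        simp) (by push Not; exact hX)
  obtain ⟨y1, y2, y3, y4⟩ := bad_struct G F hF hd6 B hBF ψ' hψ' Y (∑ v ∈ Y, σ' v) (hbound' Y) (by
      rw [sum4 σ' h0' Y, hc', hd']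
      rcases ha' with h | h <;> rcases hb' with h' | h' <;> rw [h, h'] <;> split_ifs <;>
        norm_num) (by
      intro hne
      constructor
      · by_contra hcon
        rw [Finset.not_nonempty_iff_eq_empty] at hcon
        apply hne
        rw [hcon]; simp
      · by_contra hcon
        rw [Finset.not_nonempty_iff_eq_empty, Finset.compl_eq_empty_iff] at hcon
        apply hne
        rw [sum4 σ' h0' Y, hc', hd', hcon]
        simp) (by push Not; exact hY)
  rw [sum4 σ h0 X, hb, hcc, hd] at x4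
  rw [sum4 σ' h0' Y, hc', hd'] at y4
  have px : (a ∈ X ∧ c ∈ X ∧ b ∉ X ∧ d ∉ X) ∨ (a ∉ X ∧ c ∉ X ∧ b ∈ X ∧ d ∈ X) := by
    by_cases q1 : a ∈ X <;> by_cases q2 : b ∈ X <;> by_cases q3 : c ∈ X <;> by_cases q4 : d ∈ X <;>
      rcases ha with h | h <;> simp [q1, q2, q3, q4, h] at x4 ⊢
  have py : ((a ∈ Y ∧ c ∉ Y) ∨ (a ∉ Y ∧ c ∈ Y)) ∧ ((b ∈ Y ∧ d ∉ Y) ∨ (b ∉ Y ∧ d ∈ Y)) := by
    by_cases q1 : a ∈ Y <;> by_cases q2 : b ∈ Y <;> by_cases q3 : c ∈ Y <;> by_cases q4 : d ∈ Y <;>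
      rcases ha' with h | h <;> rcases hb' with h' | h' <;>
      simp [q1, q2, q3, q4, h, h'] at y4 ⊢
  apply no_two_bad G hc F hF h7 hd6 ({a, b, c, d} : Finset V) hU B hBF hB X Y x1 y1 x2 y2 x3 y3
  all_goals
    rw [cnt4]
    simp only [Finset.mem_inter, Finset.mem_compl]
    rcases px with ⟨p1, p2, p3, p4⟩ | ⟨p1, p2, p3, p4⟩ <;>
    rcases py with ⟨⟨r1, r2⟩ | ⟨r1, r2⟩, ⟨r3, r4⟩ | ⟨r3, r4⟩⟩ <;>
    simp [p1, p2, p3, p4, r1, r2, r3, r4]

/-- Cyclically 6-edge-connected cubic graphs and 2-factors with at most four odd circuits. -/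
theorem exists_pair_oddness_four (hc : G.Cubic) (F : Finset E) (hF : G.IsTwoFactor F)
    (h7 : OddCyclicSeven G) (hd6 : DisjointSix G F) (ht : G.oddCount F ≤ 4) :
    ∃ φ₂ φ : E → ℤ, IsFlowPair G 2 3 φ₂ φ ∧ ∀ e, φ₂ e ≠ 0 ↔ e ∈ F := by
  classical
  obtain ⟨U, hU, hUc⟩ := exists_transversal G F
  obtain ⟨n, hn⟩ := transversal_even G hc F hF U hU
  by_cases hU4 : U.card = 4
  · obtain ⟨a, haU⟩ : U.Nonempty := Finset.card_pos.1 (by omega)
    have h3 : (U.erase a).card = 3 := by rw [Finset.card_erase_of_mem haU]; omega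
    obtain ⟨b, c, d, hbc, hbd, hcd, hU3⟩ := Finset.card_eq_three.1 h3
    have hUe : U = {a, b, c, d} := by
      rw [← Finset.insert_erase haU, hU3]
    have hmem : ∀ x, x ∈ ({b, c, d} : Finset V) → a ≠ x := by
      intro x hx
      rw [← hU3] at hx
      exact (Finset.ne_of_mem_erase hx).symm
    have hab := hmem b (by simp)
    have hac := hmem c (by simp)
    have had := hmem d (by simp)
    obtain ⟨B, hBF, hB⟩ := exists_matching_of_reps G F hF U (hU.inj G) (hU.odd_iff G)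
    obtain ⟨ψ, σ, hψ, hσ, h0, hbound⟩ := exists_orientation_signs G Fᶜ B
      (Finset.disjoint_of_subset_right hBF disjoint_compl_left) (deg_compl G hc F hF) U hB
      (fun v => if v = a then b else if v = b then a else if v = c then d else
        if v = d then c else v) (by
        intro u hu
        rw [hUe] at hu ⊢
        simp only [Finset.mem_insert, Finset.mem_singleton] at hu
        rcases hu with rfl | rfl | rfl | rfl <;>
          simp [hab, hac, had, hbc, hbd, hcd, hab.symm, hac.symm, had.symm, hbc.symm, hbd.symm,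
            hcd.symm])
    have hinj := hU.inj G
    rw [hUe] at hσ h0 hB hinj
    have ha1 := (hσ a (by simp)).1
    have hc1 := (hσ c (by simp)).1
    have hb1 : σ b = -σ a := by
      have := (hσ a (by simp)).2
      simpa using this
    have hd1 : σ d = -σ c := by
      have := (hσ c (by simp)).2
      simpa [hac.symm, hbc.symm] using this
    by_cases hs : σ c = σ a
    · exact four_aux G hc F hF h7 hd6 a b c d hab hac had hbc hbd hcd hinj B hBF hB ψ σ hψ h0 ha1 hb1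
        hs (by rw [hd1, hs]) hbound
    · have hs' : σ c = -σ a := by
        rcases ha1 with h | h <;> rcases hc1 with h' | h' <;> rw [h, h'] at hs ⊢ <;> simp at hs ⊢
      have hset : ({a, b, c, d} : Finset V) = {a, b, d, c} := by
        ext v; simp only [Finset.mem_insert, Finset.mem_singleton]; tauto
      rw [hset] at h0 hB hinj
      exact four_aux G hc F hF h7 hd6 a b d c hab had hac hbd hbc hcd.symm hinj B hBF hB ψ σ hψ h0 ha1
        hb1 (by rw [hd1, hs', neg_neg]) hs' hbound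
  · obtain ⟨τ, hτ⟩ := exists_pairing n U (by omega)
    apply exists_pair_of_transversal G hc F hF U hU τ hτ 2 3
    intro X y hcy hlt
    have h1 := two_sep_le U τ hτ X
    have hhs := G.handshake F X
    rw [Finset.sum_congr rfl (fun v _ => hF v)] at hhs
    simp only [Finset.sum_const, smul_eq_mul] at hhs
    have hs : sep U τ X = 1 := by omega
    have h0 : (G.cut X ∩ F).card = 0 := by omega
    obtain ⟨u, hu⟩ : (U.filter (fun u => u ∈ X ∧ τ u ∉ X)).Nonempty :=
      Finset.card_pos.1 (by unfold sep at hs; omega)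
    have h2 := six_le_of_disjoint G F hd6 X h0 ⟨u, (Finset.mem_filter.1 hu).2.1⟩
      ⟨τ u, by simpa using (Finset.mem_filter.1 hu).2.2⟩
    omega

/-- Cyclically 6-edge-connected graphs satisfy both conditions. -/
theorem conditions_of_cyclic (F : Finset E) (hF : G.IsTwoFactor F)
    (h6 : CyclicallyEdgeConnected G 6) : OddCyclicSeven G ∧ DisjointSix G F := by
  refine ⟨fun X h1 h2 h3 => ?_, fun X h1 h2 h3 => ?_⟩
  · have h4 := h6 X h1 h2
    rw [Nat.odd_iff] at h3
    omega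
  · exact h6 X (G.hasCycleIn_of_cut F hF X h3 h1)
      (G.hasCycleIn_of_cut F hF Xᶜ (by rw [cut_compl']; exact h3) h2)

end Pool.Agent.W965.TFP.Odd
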