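import Pool.Agent.W965.TFP.Four

/-!
# Cubic graphs with a 2-factor having at most four odd circuits: weaker connectivity hypotheses
-/

namespace Pool.Agent.W965.TFP.Odd
open Pool.Agent.W965.TFP
open Finset Pool.Agent.H160R2.HF Pool.Agent.H160R2.HF.OrGraph Pool.Agent.H884R2.HFP

variable {V E : Type*} [Fintype V] [Fintype E] [DecidableEq V] [DecidableEq E] (G : OrGraph V E)

/-- No odd edge cut with a cycle on both sides has fewer than seven edges. -/
def OddCyclicSeven : Prop :=
  ∀ X : Finset V, G.HasCycleIn X → G.HasCycleIn Xᶜ → Odd (G.cut X).card → 7 ≤ (G.cut X).card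

/-- Every edge cut between two nonempty sides that contains no edge of `F` has at least six edges. -/
def DisjointSix (F : Finset E) : Prop :=
  ∀ X : Finset V, X.Nonempty → Xᶜ.Nonempty → G.cut X ∩ F = ∅ → 6 ≤ (G.cut X).card

theorem six_le_of_disjoint (F : Finset E) (hd : DisjointSix G F)
    (X : Finset V) (h0 : (G.cut X ∩ F).card = 0) (h1 : X.Nonempty) (h2 : Xᶜ.Nonempty) :
    6 ≤ (G.cut X).card :=
  hd X h1 h2 (Finset.card_eq_zero.1 h0)

/-- A set with two vertices of `U` and at most two (fewer than four) boundary edges in `F` has a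
cycle and at least seven vertices. -/
theorem large (hc : G.Cubic) (F : Finset E) (hF : G.IsTwoFactor F)
    (hd : DisjointSix G F)
    (U : Finset V) (hU : ∀ u ∈ U, ∀ v ∈ U, (G.sub F).Reachable u v → u = v) (W : Finset V)
    (hW : (U.filter (fun u => u ∈ W)).card = 2) (hcF : (G.cut W ∩ F).card < 4) :
    G.HasCycleIn W ∧ 7 ≤ W.card := by
  classical
  obtain ⟨u, hu, hu2⟩ := exists_comp_inside G F hF W (U.filter (fun u => u ∈ W)) (by
    intro u hu; exact (Finset.mem_filter.1 hu).2) (by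
    intro u hu v hv huv
    exact hU u (Finset.mem_filter.1 hu).1 v (Finset.mem_filter.1 hv).1 huv) (by omega)
  have huW : u ∈ W := (Finset.mem_filter.1 hu).2
  refine ⟨hasCycleIn_of_comp G F hF W u huW hu2, ?_⟩
  obtain ⟨w, hw, hwu⟩ : ∃ w ∈ U.filter (fun u => u ∈ W), w ≠ u := by
    apply Finset.exists_mem_ne _ u
    omega
  have hwW : w ∈ W := (Finset.mem_filter.1 hw).2
  set O : Finset V := W.filter (fun v => (G.sub F).Reachable u v) with hO
  have hside : ∀ e ∈ F, (G.sub F).Reachable (G.t e) (G.h e) := by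
    intro e he
    by_cases h5 : G.t e = G.h e
    · rw [h5]
    · apply SimpleGraph.Adj.reachable
      rw [sub, SimpleGraph.fromRel_adj]
      exact ⟨h5, Or.inl ⟨e, he, rfl, rfl⟩⟩
  have hcut : (G.cut O ∩ F).card = 0 := by
    rw [Finset.card_eq_zero]
    ext e
    simp only [cut, Finset.mem_inter, Finset.mem_filter, Finset.mem_univ, true_and,
      Finset.notMem_empty, iff_false, hO]
    rintro ⟨h1, he⟩
    have h2 := hside e he
    apply h1
    exact ⟨fun h3 => ⟨hu2 _ (h3.2.trans h2), h3.2.trans h2⟩,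
      fun h3 => ⟨hu2 _ (h3.2.trans h2.symm), h3.2.trans h2.symm⟩⟩
  have huO : u ∈ O := Finset.mem_filter.2 ⟨huW, SimpleGraph.Reachable.refl u⟩
  have hwO : w ∉ O := by
    intro h
    apply hwu
    exact (hU u (Finset.mem_filter.1 hu).1 w (Finset.mem_filter.1 hw).1
      (Finset.mem_filter.1 h).2).symm
  have h7 := six_le_of_disjoint G F hd O hcut ⟨u, huO⟩ ⟨w, by simpa using hwO⟩
  have h8 := cut_card G F O
  have h9 := G.handshake Fᶜ O
  rw [Finset.sum_congr rfl (fun v _ => deg_compl G hc F hF v)] at h9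
  simp only [Finset.sum_const, smul_eq_mul, mul_one] at h9
  have h10 : O.card < W.card := Finset.card_lt_card ⟨Finset.filter_subset _ _, fun h => hwO (h hwW)⟩
  omega

/-- A set with one vertex of `U` all of whose boundary edges in `F` are in `B`. -/
theorem corner (hc : G.Cubic) (F : Finset E) (hF : G.IsTwoFactor F)
    (h7 : OddCyclicSeven G) (U : Finset V) (B : Finset E) (hBF : B ⊆ F)
    (hB : ∀ v, G.deg B v = if v ∈ U then 0 else 1) (Z : Finset V)
    (hZ : (U.filter (fun u => u ∈ Z)).card = 1) (hZF : G.cut Z ∩ F ⊆ B)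
    (hcyc : G.HasCycleIn Zᶜ) : 7 ≤ (G.cut Z).card ∨ Z.card ≤ 3 := by
  classical
  have hne : Z.Nonempty := by
    obtain ⟨u, hu⟩ := Finset.card_pos.1 (by rw [hZ]; exact one_pos)
    exact ⟨u, (Finset.mem_filter.1 hu).2⟩
  have hpar : (G.cut Z).card % 2 = 1 := by
    have h1 := G.handshake Fᶜ Z
    rw [Finset.sum_congr rfl (fun v _ => deg_compl G hc F hF v)] at h1
    simp only [Finset.sum_const, smul_eq_mul, mul_one] at h1
    have h2 := G.handshake B Z
    rw [Finset.sum_congr rfl (fun v _ => hB v)] at h2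
    have h3 : ∑ v ∈ Z, (if v ∈ U then 0 else 1) + (Z.filter (fun v => v ∈ U)).card = Z.card := by
      rw [Finset.card_filter, ← Finset.sum_add_distrib]
      have : ∀ v : V, (if v ∈ U then 0 else 1) + (if v ∈ U then 1 else 0) = 1 := by
        intro v; split_ifs <;> rfl
      rw [Finset.sum_congr rfl (fun v _ => this v)]; simp
    have h4 : Z.filter (fun v => v ∈ U) = U.filter (fun u => u ∈ Z) := by
      ext v; simp [and_comm]
    rw [h4, hZ] at h3
    have h5 : G.cut Z ∩ F = G.cut Z ∩ B := by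
      apply Finset.Subset.antisymm
      · intro e he
        exact Finset.mem_inter.2 ⟨(Finset.mem_inter.1 he).1, hZF he⟩
      · exact Finset.inter_subset_inter_left hBF
    have h6' := cut_card G F Z
    rw [h5] at h6'
    omega
  by_cases hcase : G.HasCycleIn Z
  · left
    exact h7 Z hcase hcyc (Nat.odd_iff.2 hpar)
  · have := Pool.Agent.H185C.acyclic_le G hc Z hne hcase
    omega

/-- Two crossing bad cuts are impossible. -/
theorem no_two_bad (hc : G.Cubic) (F : Finset E) (hF : G.IsTwoFactor F)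
    (h7 : OddCyclicSeven G) (hd : DisjointSix G F) (U : Finset V)
    (hU : ∀ u ∈ U, ∀ v ∈ U, (G.sub F).Reachable u v → u = v) (B : Finset E) (hBF : B ⊆ F)
    (hB : ∀ v, G.deg B v = if v ∈ U then 0 else 1) (X Y : Finset V)
    (hX6 : (G.cut X).card = 6) (hY6 : (G.cut Y).card = 6)
    (hXF : (G.cut X ∩ F).card ≤ 2) (hYF : (G.cut Y ∩ F).card ≤ 2)
    (hXB : G.cut X ∩ F ⊆ B) (hYB : G.cut Y ∩ F ⊆ B)
    (h1 : (U.filter (fun u => u ∈ X ∩ Y)).card = 1)
    (h2 : (U.filter (fun u => u ∈ X ∩ Yᶜ)).card = 1)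
    (h3 : (U.filter (fun u => u ∈ Xᶜ ∩ Y)).card = 1)
    (h4 : (U.filter (fun u => u ∈ Xᶜ ∩ Yᶜ)).card = 1) : False := by
  classical
  -- counts on the four big sets
  have split : ∀ P Q : Finset V, (U.filter (fun u => u ∈ P)).card =
      (U.filter (fun u => u ∈ P ∩ Q)).card + (U.filter (fun u => u ∈ P ∩ Qᶜ)).card := by
    intro P Q
    rw [← Finset.card_union_of_disjoint]
    · congr 1
      ext u
      simp only [Finset.mem_filter, Finset.mem_union, Finset.mem_inter, Finset.mem_compl]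
      tauto
    · rw [Finset.disjoint_left]
      intro u hu hv
      simp only [Finset.mem_filter, Finset.mem_inter, Finset.mem_compl] at hu hv
      exact hv.2.2 hu.2.2
  have cX : (U.filter (fun u => u ∈ X)).card = 2 := by rw [split X Y]; omega
  have cXc : (U.filter (fun u => u ∈ Xᶜ)).card = 2 := by rw [split Xᶜ Y]; omega
  have cY : (U.filter (fun u => u ∈ Y)).card = 2 := by
    rw [split Y X, Finset.inter_comm Y X, Finset.inter_comm Y Xᶜ]; omega
  have cYc : (U.filter (fun u => u ∈ Yᶜ)).card = 2 := by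
    rw [split Yᶜ X, Finset.inter_comm Yᶜ X, Finset.inter_comm Yᶜ Xᶜ]; omega
  have lX := large G hc F hF hd U hU X cX (by omega)
  have lXc := large G hc F hF hd U hU Xᶜ cXc (by rw [cut_compl']; omega)
  have lY := large G hc F hF hd U hU Y cY (by omega)
  have lYc := large G hc F hF hd U hU Yᶜ cYc (by rw [cut_compl']; omega)
  have hsub : ∀ P Q : Finset V, G.cut P ∩ F ⊆ B → G.cut Q ∩ F ⊆ B → G.cut (P ∩ Q) ∩ F ⊆ B := by
    intro P Q hP hQ e he
    rw [Finset.mem_inter] at he
    have h5 : e ∈ G.cut P ∨ e ∈ G.cut Q := by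
      have := he.1
      simp only [OrGraph.cut, Finset.mem_filter, Finset.mem_univ, true_and,
        Finset.mem_inter] at this ⊢
      tauto
    rcases h5 with h5 | h5
    · exact hP (Finset.mem_inter.2 ⟨h5, he.2⟩)
    · exact hQ (Finset.mem_inter.2 ⟨h5, he.2⟩)
  have hXBc : G.cut Xᶜ ∩ F ⊆ B := by rw [cut_compl']; exact hXB
  have hYBc : G.cut Yᶜ ∩ F ⊆ B := by rw [cut_compl']; exact hYB
  have k1 := corner G hc F hF h7 U B hBF hB (X ∩ Y) h1 (hsub X Y hXB hYB)
    (hasCycleIn_mono G (by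
      intro v hv; simp only [Finset.mem_compl, Finset.mem_inter] at hv ⊢; tauto) lXc.1)
  have k2 := corner G hc F hF h7 U B hBF hB (X ∩ Yᶜ) h2 (hsub X Yᶜ hXB hYBc)
    (hasCycleIn_mono G (by
      intro v hv; simp only [Finset.mem_compl, Finset.mem_inter] at hv ⊢; tauto) lXc.1)
  have k3 := corner G hc F hF h7 U B hBF hB (Xᶜ ∩ Y) h3 (hsub Xᶜ Y hXBc hYB)
    (hasCycleIn_mono G (by
      intro v hv; simp only [Finset.mem_compl, Finset.mem_inter] at hv ⊢; tauto) lX.1)
  have k4 := corner G hc F hF h7 U B hBF hB (Xᶜ ∩ Yᶜ) h4 (hsub Xᶜ Yᶜ hXBc hYBc)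
    (hasCycleIn_mono G (by
      intro v hv; simp only [Finset.mem_compl, Finset.mem_inter] at hv ⊢; tauto) lX.1)
  have s1 := cut_submod G X Y
  have s2 := cut_submod G X Yᶜ
  have e1 : (G.cut (X ∪ Y)).card = (G.cut (Xᶜ ∩ Yᶜ)).card := by
    rw [← cut_compl' G (X ∪ Y), Finset.compl_union]
  have e2 : (G.cut (X ∪ Yᶜ)).card = (G.cut (Xᶜ ∩ Y)).card := by
    rw [← cut_compl' G (X ∪ Yᶜ), Finset.compl_union, compl_compl]
  rw [e1] at s1
  rw [e2, cut_compl'] at s2
  have hcard : ∀ P Q : Finset V, P.card = (P ∩ Q).card + (P ∩ Qᶜ).card := by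
    intro P Q
    rw [← Finset.card_union_of_disjoint]
    · congr 1
      ext u
      simp only [Finset.mem_union, Finset.mem_inter, Finset.mem_compl]
      tauto
    · rw [Finset.disjoint_left]
      intro u hu hv
      simp only [Finset.mem_inter, Finset.mem_compl] at hu hv
      exact hv.2 hu.2
  have d1 := hcard X Y
  have d2 := hcard Xᶜ Y
  have d3 := hcard Y X
  have d4 := hcard Yᶜ X
  rw [Finset.inter_comm Y X, Finset.inter_comm Y Xᶜ] at d3
  rw [Finset.inter_comm Yᶜ X, Finset.inter_comm Yᶜ Xᶜ] at d4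
  have := lX.2
  have := lXc.2
  have := lY.2
  have := lYc.2
  omega

end Pool.Agent.W965.TFP.Odd
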