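import Pool.Agent.H884R2.HFP.Cor

/-!
# `p/q`-flow-pairs from a 2-factor and a pairing of its odd circuits
-/

namespace Pool.Agent.W965.TFP
open Finset Pool.Agent.H160R2.HF Pool.Agent.H160R2.HF.OrGraph Pool.Agent.H884R2.HFP

variable {V E : Type*} [Fintype V] [Fintype E] [DecidableEq V] [DecidableEq E] (G : OrGraph V E)

/-- A `p/q`-flow-pair: a 2-flow and a `(p+q+1)`-flow such that the second has absolute value at
least `q` on every edge on which the first vanishes. -/
def IsFlowPair (p q : ℕ) (φ₂ φ : E → ℤ) : Prop :=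
  G.IsKFlow 2 φ₂ ∧ G.IsKFlow (p + q + 1) φ ∧ ∀ e, φ₂ e = 0 → (q : ℤ) ≤ |φ e|

/-- The pairing theorem for `p/q`-flow-pairs, in terms of a matching `B` inside the 2-factor. -/
theorem exists_pair (hc : G.Cubic) (F : Finset E) (hF : G.IsTwoFactor F)
    (U : Finset V) (B : Finset E) (hBF : B ⊆ F) (hB : ∀ v, G.deg B v = if v ∈ U then 0 else 1)
    (τ : V → V) (hτ : ∀ u ∈ U, τ u ∈ U ∧ τ (τ u) = u ∧ τ u ≠ u) (p q : ℕ)
    (hq : ∀ (X : Finset V) (y : ℕ), (G.cut X ∩ F).card ≤ y → p * y < q * sep U τ X →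
      2 * y + sep U τ X < (G.cut X).card) :
    ∃ φ₂ φ : E → ℤ, IsFlowPair G p q φ₂ φ ∧ ∀ e, φ₂ e ≠ 0 ↔ e ∈ F := by
  classical
  have hdegM : ∀ v, G.deg Fᶜ v = 1 := deg_compl G hc F hF
  obtain ⟨ψ, hψ1, hψ2⟩ := exists_orientation_pairing G Fᶜ B
    (Finset.disjoint_of_subset_right hBF disjoint_compl_left) hdegM U hB τ hτ
  obtain ⟨φ₂, h21, h22⟩ := eulerian G.t G.h F (fun v => by
    have := hF v
    unfold deg at this
    rw [this]; decide)
  obtain ⟨φ₄, h41, h42⟩ := hoffman G.t G.h
    (fun e => if e ∈ F then -((p : ℤ) + q) else if ψ e = 1 then (q : ℤ) else -((p : ℤ) + q))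
    (fun e => if e ∈ F then (p : ℤ) + q else if ψ e = 1 then (p : ℤ) + q else -(q : ℤ))
    (fun _ => 0) (fun e => by
      have hp' : (0 : ℤ) ≤ p := Int.natCast_nonneg p
      have hq' : (0 : ℤ) ≤ q := Int.natCast_nonneg q
      split_ifs <;> linarith) (by simp) (by
      intro X
      have hp' : (0 : ℤ) ≤ p := Int.natCast_nonneg p
      have hq' : (0 : ℤ) ≤ q := Int.natCast_nonneg q
      -- twice the Hoffman function
      have hff : 2 * ff G.t G.h
          (fun e => if e ∈ F then -((p : ℤ) + q) else if ψ e = 1 then (q : ℤ) else -((p : ℤ) + q))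
          (fun e => if e ∈ F then (p : ℤ) + q else if ψ e = 1 then (p : ℤ) + q else -(q : ℤ))
          (fun _ => 0) X =
          2 * ((p : ℤ) + q) * (G.cut X ∩ F).card + p * (G.cut X ∩ Fᶜ).card -
            ((p : ℤ) + 2 * q) * ∑ v ∈ X, net G.t G.h ψ v := by
        unfold ff
        rw [net_sum]
        have e1 : ((G.cut X ∩ F).card : ℤ) = ∑ e, if e ∈ G.cut X ∩ F then 1 else 0 := by
          simp only [Finset.sum_boole]
          congr 2
          ext e; simp
        have e2 : ((G.cut X ∩ Fᶜ).card : ℤ) = ∑ e, if e ∈ G.cut X ∩ Fᶜ then 1 else 0 := by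
          simp only [Finset.sum_boole]
          congr 2
          ext e; simp
        rw [e1, e2, Finset.mul_sum, Finset.mul_sum, ← Finset.sum_add_distrib, Finset.mul_sum,
          ← Finset.sum_sub_distrib]
        rw [Finset.sum_const_zero, zero_add, Finset.mul_sum]
        refine Finset.sum_congr rfl fun e _ => ?_
        unfold ce
        by_cases he : e ∈ F
        · have h0 : ψ e = 0 := (hψ1 e).2 (by simpa using he)
          by_cases a : G.t e ∈ X <;> by_cases b : G.h e ∈ X <;> simp [a, b, he, cut, h0] <;> ring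
        · rcases (hψ1 e).1 (by simpa using he) with h | h <;>
          by_cases a : G.t e ∈ X <;> by_cases b : G.h e ∈ X <;> simp [a, b, he, cut, h] <;> ring
      have hm := G.abs_net_le ψ Fᶜ (fun e he => by
        rcases (hψ1 e).1 he with h | h <;> rw [h] <;> simp) (fun e he => (hψ1 e).2 he) X
      have hpar := net_parity G ψ Fᶜ (fun e he => (hψ1 e).1 he) (fun e he => (hψ1 e).2 he) X
      have hb' := hψ2 X
      have hbf : (G.cut X ∩ B).card ≤ (G.cut X ∩ F).card :=
        Finset.card_le_card (Finset.inter_subset_inter_left hBF)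
      have hcard := cut_card G F X
      rw [abs_le] at hm hb'
      by_contra hneg
      push Not at hneg
      obtain ⟨w, hw⟩ := hpar
      obtain ⟨k, hk⟩ : ∃ k : ℕ, (k : ℤ) = -w := ⟨(-w).toNat, Int.toNat_of_nonneg (by omega)⟩
      generalize (∑ v ∈ X, net G.t G.h ψ v) = ν at *
      have hνle : ν ≤ (G.cut X ∩ F).card + sep U τ X := by
        have h1 := hb'.2
        have h2 : ((G.cut X ∩ B).card : ℤ) ≤ (G.cut X ∩ F).card := by exact_mod_cast hbf
        linarith
      have hm2 : ((G.cut X ∩ Fᶜ).card : ℤ) = ν + 2 * k := by linarith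
      have hmul : (q : ℤ) * ν ≤ q * ((G.cut X ∩ F).card + sep U τ X) :=
        mul_le_mul_of_nonneg_left hνle hq'
      have hlt : (p : ℤ) * (((G.cut X ∩ F).card + k : ℕ) : ℤ) < q * (sep U τ X : ℤ) := by
        push_cast
        rw [hm2] at hff
        nlinarith
      have h3 := hq X ((G.cut X ∩ F).card + k) (by omega) (by exact_mod_cast hlt)
      omega)
  refine ⟨φ₂, φ₄, ⟨⟨fun e => ?_, G.isFlow_of_net h22⟩, ⟨fun e => ?_, G.isFlow_of_net h42⟩,
    fun e he => ?_⟩, fun e => ?_⟩
  · by_cases he : e ∈ F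
    · rcases (h21 e).1 he with h | h <;> rw [h] <;> simp
    · rw [(h21 e).2 he]; simp
  · have h1 := h41 e
    have hp' : (0 : ℤ) ≤ p := Int.natCast_nonneg p
    have hq' : (0 : ℤ) ≤ q := Int.natCast_nonneg q
    rw [abs_le]
    push_cast
    split_ifs at h1 <;> constructor <;> linarith [h1.1, h1.2]
  · have he' : e ∉ F := by
      intro heF
      rcases (h21 e).1 heF with h | h <;> rw [h] at he <;> simp at he
    have h1 := h41 e
    rw [if_neg he', if_neg he'] at h1
    rw [le_abs]
    split_ifs at h1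
    · left; exact h1.1
    · right; linarith [h1.2]
  · constructor
    · intro h
      by_contra he
      exact h ((h21 e).2 he)
    · intro he
      rcases (h21 e).1 he with h | h <;> rw [h] <;> simp

/-- The pairing theorem for `p/q`-flow-pairs. -/
theorem exists_pair_of_transversal (hc : G.Cubic) (F : Finset E) (hF : G.IsTwoFactor F)
    (U : Finset V) (hU : OddTransversal G F U)
    (τ : V → V) (hτ : ∀ u ∈ U, τ u ∈ U ∧ τ (τ u) = u ∧ τ u ≠ u) (p q : ℕ)
    (hq : ∀ (X : Finset V) (y : ℕ), (G.cut X ∩ F).card ≤ y → p * y < q * sep U τ X →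
      2 * y + sep U τ X < (G.cut X).card) :
    ∃ φ₂ φ : E → ℤ, IsFlowPair G p q φ₂ φ ∧ ∀ e, φ₂ e ≠ 0 ↔ e ∈ F := by
  obtain ⟨B, hBF, hB⟩ := exists_matching_of_reps G F hF U (hU.inj G) (hU.odd_iff G)
  exact exists_pair G hc F hF U B hBF hB τ hτ p q hq

end Pool.Agent.W965.TFP
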