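import Pool.Agent.W965.TFP.Cor
import Pool.Agent.H185C.Acyclic

/-!
# Orientations with prescribed signs, and the Hoffman step
-/

namespace Pool.Agent.W965.TFP
open Finset Pool.Agent.H160R2.HF Pool.Agent.H160R2.HF.OrGraph Pool.Agent.H884R2.HFP

variable {V E : Type*} [Fintype V] [Fintype E] [DecidableEq V] [DecidableEq E] (G : OrGraph V E)

theorem cut_submod (X Z : Finset V) :
    (G.cut (X ∩ Z)).card + (G.cut (X ∪ Z)).card ≤ (G.cut X).card + (G.cut Z).card := by
  have h1 : G.cut (X ∩ Z) ∪ G.cut (X ∪ Z) ⊆ G.cut X ∪ G.cut Z := by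
    intro g hg
    simp only [OrGraph.cut, Finset.mem_union, Finset.mem_filter, Finset.mem_univ, true_and,
      Finset.mem_inter] at hg ⊢
    tauto
  have h2 : G.cut (X ∩ Z) ∩ G.cut (X ∪ Z) ⊆ G.cut X ∩ G.cut Z := by
    intro g hg
    simp only [OrGraph.cut, Finset.mem_union, Finset.mem_filter, Finset.mem_univ, true_and,
      Finset.mem_inter] at hg ⊢
    tauto
  have h3 := Finset.card_le_card h1
  have h4 := Finset.card_le_card h2
  have h5 := Finset.card_union_add_card_inter (G.cut (X ∩ Z)) (G.cut (X ∪ Z))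
  have h6 := Finset.card_union_add_card_inter (G.cut X) (G.cut Z)
  omega

theorem cut_compl' (X : Finset V) : G.cut Xᶜ = G.cut X := by
  ext e; simp [cut, not_iff_not]

/-- An orientation of the perfect matching `M` from a matching `B` missing exactly `U` and a pairing
of `U`, with the signs of the vertices of `U`. -/
theorem exists_orientation_signs (M B : Finset E) (hMB : Disjoint M B)
    (hM : ∀ v, G.deg M v = 1) (U : Finset V) (hB : ∀ v, G.deg B v = if v ∈ U then 0 else 1)
    (τ : V → V) (hτ : ∀ u ∈ U, τ u ∈ U ∧ τ (τ u) = u ∧ τ u ≠ u) :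
    ∃ (ψ : E → ℤ) (σ : V → ℤ), (∀ e, (e ∈ M → ψ e = 1 ∨ ψ e = -1) ∧ (e ∉ M → ψ e = 0)) ∧
      (∀ u ∈ U, (σ u = 1 ∨ σ u = -1) ∧ σ (τ u) = -σ u) ∧ (∀ u, u ∉ U → σ u = 0) ∧
      ∀ X : Finset V, |∑ v ∈ X, net G.t G.h ψ v| ≤ (G.cut X ∩ B).card + |∑ v ∈ X, σ v| := by
  classical
  obtain ⟨S, hSU, hS⟩ := exists_half U τ hτ
  have hdegMB : ∀ v, G.deg (M ∪ B) v = G.deg M v + G.deg B v := by
    intro v
    unfold deg
    rw [Finset.filter_union, Finset.filter_union, Finset.card_union_of_disjoint,
      Finset.card_union_of_disjoint]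
    · ring
    · exact Finset.disjoint_filter_filter hMB
    · exact Finset.disjoint_filter_filter hMB
  let t' : E ⊕ V → V := Sum.elim G.t id
  let h' : E ⊕ V → V := Sum.elim G.h τ
  let F' : Finset (E ⊕ V) := (M ∪ B).disjSum S
  have hfil : ∀ (k : E → V) (l : V → V) (v : V),
      (F'.filter (fun o => Sum.elim k l o = v)).card =
        ((M ∪ B).filter (fun e => k e = v)).card + (S.filter (fun u => l u = v)).card := by
    intro k l v
    rw [Finset.card_filter, Finset.card_filter, Finset.card_filter]
    simp only [F']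
    rw [Finset.sum_disjSum]
    rfl
  have hSone : ∀ v, (S.filter (fun u => id u = v)).card + (S.filter (fun u => τ u = v)).card =
      if v ∈ U then 1 else 0 := by
    intro v
    by_cases hv : v ∈ U
    · rw [if_pos hv]
      obtain ⟨h1, h2, h3⟩ := hτ v hv
      have e1 : S.filter (fun u => id u = v) = if v ∈ S then {v} else ∅ := by
        ext w
        by_cases hvS : v ∈ S
        · rw [if_pos hvS, Finset.mem_filter, Finset.mem_singleton]
          exact ⟨fun h => h.2, fun h => ⟨by rw [h]; exact hvS, h⟩⟩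
        · rw [if_neg hvS, Finset.mem_filter]
          simp only [id, Finset.notMem_empty, iff_false]
          rintro ⟨h4, h5⟩
          exact hvS (h5 ▸ h4)
      have e2 : S.filter (fun u => τ u = v) = if τ v ∈ S then {τ v} else ∅ := by
        ext w
        by_cases hvS : τ v ∈ S
        · rw [if_pos hvS, Finset.mem_filter, Finset.mem_singleton]
          constructor
          · rintro ⟨h4, h5⟩
            rw [← h5, (hτ w (hSU h4)).2.1]
          · intro h
            rw [h]; exact ⟨hvS, h2⟩
        · rw [if_neg hvS, Finset.mem_filter]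
          simp only [Finset.notMem_empty, iff_false]
          rintro ⟨h4, h5⟩
          apply hvS
          rw [← h5, (hτ w (hSU h4)).2.1]; exact h4
      rw [e1, e2]
      have h6 := hS v hv
      by_cases hvS : v ∈ S
      · rw [if_pos hvS, if_neg (h6.1 hvS)]; simp
      · have h7 : τ v ∈ S := by
          by_contra h7
          exact hvS (h6.2 h7)
        rw [if_neg hvS, if_pos h7]; simp
    · rw [if_neg hv]
      have e1 : S.filter (fun u => id u = v) = ∅ := by
        ext w
        rw [Finset.mem_filter]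
        simp only [id, Finset.notMem_empty, iff_false]
        rintro ⟨h4, h5⟩
        exact hv (h5 ▸ hSU h4)
      have e2 : S.filter (fun u => τ u = v) = ∅ := by
        ext w
        rw [Finset.mem_filter]
        simp only [Finset.notMem_empty, iff_false]
        rintro ⟨h4, h5⟩
        exact hv (h5 ▸ (hτ w (hSU h4)).1)
      rw [e1, e2]; simp
  obtain ⟨χ, hχ1, hχ2⟩ := eulerian t' h' F' (fun v => by
    simp only [t', h']
    rw [hfil, hfil]
    have h1 := hdegMB v
    rw [hM v, hB v] at h1
    have h2 := hSone v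
    unfold deg at h1
    refine ⟨1, ?_⟩
    by_cases hv : v ∈ U
    · rw [if_pos hv] at h1 h2; omega
    · rw [if_neg hv] at h1 h2; omega)
  have g1 : ∀ u ∈ S, χ (Sum.inr u) = 1 ∨ χ (Sum.inr u) = -1 := fun u hu =>
    (hχ1 (Sum.inr u)).1 (by simp [F', hu])
  have g0 : ∀ u, u ∉ S → χ (Sum.inr u) = 0 := fun u hu =>
    (hχ1 (Sum.inr u)).2 (by simp [F', hu])
  have hnet : ∀ v, net (id : V → V) τ (fun u => χ (Sum.inr u)) v =
      χ (Sum.inr v) - (if v ∈ U then χ (Sum.inr (τ v)) else 0) := by
    intro v
    unfold net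
    congr 1
    · rw [Finset.sum_filter]
      simp
    · rw [Finset.sum_filter]
      by_cases hv : v ∈ U
      · rw [if_pos hv, Finset.sum_eq_single (τ v)]
        · rw [if_pos (hτ v hv).2.1]
        · intro u _ hu
          split_ifs with h5
          · apply g0
            intro h6
            apply hu
            rw [← h5, (hτ u (hSU h6)).2.1]
          · rfl
        · intro h; exact absurd (mem_univ _) h
      · rw [if_neg hv]
        apply Finset.sum_eq_zero
        intro u _
        split_ifs with h5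
        · apply g0
          intro h6
          apply hv
          rw [← h5]; exact (hτ u (hSU h6)).1
        · rfl
  refine ⟨fun e => if e ∈ M then χ (Sum.inl e) else 0,
    fun v => - net (id : V → V) τ (fun u => χ (Sum.inr u)) v, ?_, ?_, ?_, ?_⟩
  · intro e
    constructor
    · intro he
      simp only [he, if_true]
      exact (hχ1 (Sum.inl e)).1 (by simp [F', he])
    · intro he
      simp [he]
  · intro u hu
    obtain ⟨h1, h2, h3⟩ := hτ u hu
    dsimp only
    rw [hnet, hnet, if_pos hu, if_pos h1, h2]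
    by_cases huS : u ∈ S
    · have h4 := g0 _ ((hS u hu).1 huS)
      rw [h4]
      rcases g1 u huS with h | h <;> rw [h] <;> simp
    · have h4 : τ u ∈ S := by
        by_contra h4
        exact huS ((hS u hu).2 h4)
      rw [g0 u huS]
      rcases g1 _ h4 with h | h <;> rw [h] <;> simp
  · intro u hu
    dsimp only
    rw [hnet, if_neg hu, g0 u (fun h => hu (hSU h))]
    simp
  · intro X
    have h0 : ∑ v ∈ X, net t' h' χ v = 0 := by
      rw [Finset.sum_congr rfl (fun v _ => hχ2 v)]; simp
    rw [net_sum, Fintype.sum_sum_type] at h0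
    have hsplit : ∀ e, ((if t' (Sum.inl e) ∈ X then χ (Sum.inl e) else 0) -
        (if h' (Sum.inl e) ∈ X then χ (Sum.inl e) else 0)) =
        ((if G.t e ∈ X then (if e ∈ M then χ (Sum.inl e) else 0) else 0) -
          (if G.h e ∈ X then (if e ∈ M then χ (Sum.inl e) else 0) else 0)) +
        ((if G.t e ∈ X then (if e ∈ B then χ (Sum.inl e) else 0) else 0) -
          (if G.h e ∈ X then (if e ∈ B then χ (Sum.inl e) else 0) else 0)) := by
      intro e
      change ((if G.t e ∈ X then χ (Sum.inl e) else 0) -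
        (if G.h e ∈ X then χ (Sum.inl e) else 0)) = _
      by_cases a : e ∈ M
      · have : e ∉ B := Finset.disjoint_left.1 hMB a
        simp [a, this]
      · by_cases b : e ∈ B
        · simp [a, b]
        · have := (hχ1 (Sum.inl e)).2 (by simp [F', a, b])
          simp [a, b, this]
    rw [Finset.sum_congr rfl (fun e _ => hsplit e), Finset.sum_add_distrib, ← net_sum,
      ← net_sum] at h0
    have hbd := G.abs_net_le (fun e => if e ∈ B then χ (Sum.inl e) else 0) B (by
      intro e he
      simp only [he, if_true]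
      rcases (hχ1 (Sum.inl e)).1 (by simp [F', he]) with h | h <;> rw [h] <;> simp) (by
      intro e he
      simp [he]) X
    have hN : ∑ u, ((if t' (Sum.inr u) ∈ X then χ (Sum.inr u) else 0) -
        (if h' (Sum.inr u) ∈ X then χ (Sum.inr u) else 0)) =
        ∑ v ∈ X, net (id : V → V) τ (fun u => χ (Sum.inr u)) v := by
      rw [net_sum]
      rfl
    rw [hN] at h0
    rw [Finset.sum_neg_distrib, abs_neg]
    have h3 : ∑ v ∈ X, net G.t G.h (fun e => if e ∈ M then χ (Sum.inl e) else 0) v =
        -(∑ v ∈ X, net G.t G.h (fun e => if e ∈ B then χ (Sum.inl e) else 0) v) -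
        ∑ v ∈ X, net (id : V → V) τ (fun u => χ (Sum.inr u)) v := by linarith
    rw [h3]
    refine (abs_sub _ _).trans ?_
    rw [abs_neg]
    linarith

/-- The Hoffman step: an orientation of the complement of `F` satisfying the cut condition. -/
theorem pair_of_orientation (F : Finset E) (hF : G.IsTwoFactor F) (ψ : E → ℤ)
    (hψ1 : ∀ e, (e ∈ Fᶜ → ψ e = 1 ∨ ψ e = -1) ∧ (e ∉ Fᶜ → ψ e = 0)) (p q : ℕ)
    (hq : ∀ X : Finset V, ((p : ℤ) + 2 * q) * ∑ v ∈ X, net G.t G.h ψ v ≤
      2 * ((p : ℤ) + q) * (G.cut X ∩ F).card + p * (G.cut X ∩ Fᶜ).card) :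
    ∃ φ₂ φ : E → ℤ, IsFlowPair G p q φ₂ φ ∧ ∀ e, φ₂ e ≠ 0 ↔ e ∈ F := by
  classical
  obtain ⟨φ₂, h21, h22⟩ := eulerian G.t G.h F (fun v => by
    have := hF v
    unfold deg at this
    rw [this]; decide)
  obtain ⟨φ₄, h41, h42⟩ := hoffman G.t G.h
    (fun e => if e ∈ F then -((p : ℤ) + q) else if ψ e = 1 then (q : ℤ) else -((p : ℤ) + q))
    (fun e => if e ∈ F then (p : ℤ) + q else if ψ e = 1 then (p : ℤ) + q else -(q : ℤ))
    (fun _ => 0) (fun e => by
      have hp' : (0 : ℤ) ≤ p := Int.natCast_nonneg p
      have hq' : (0 : ℤ) ≤ q := Int.natCast_nonneg q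
      split_ifs <;> linarith) (by simp) (by
      intro X
      have hff : 2 * ff G.t G.h
          (fun e => if e ∈ F then -((p : ℤ) + q) else if ψ e = 1 then (q : ℤ) else -((p : ℤ) + q))
          (fun e => if e ∈ F then (p : ℤ) + q else if ψ e = 1 then (p : ℤ) + q else -(q : ℤ))
          (fun _ => 0) X =
          2 * ((p : ℤ) + q) * (G.cut X ∩ F).card + p * (G.cut X ∩ Fᶜ).card -
            ((p : ℤ) + 2 * q) * ∑ v ∈ X, net G.t G.h ψ v := by
        unfold ff
        rw [net_sum]
        have e1 : ((G.cut X ∩ F).card : ℤ) = ∑ e, if e ∈ G.cut X ∩ F then 1 else 0 := by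
          simp only [Finset.sum_boole]
          congr 2
          ext e; simp
        have e2 : ((G.cut X ∩ Fᶜ).card : ℤ) = ∑ e, if e ∈ G.cut X ∩ Fᶜ then 1 else 0 := by
          simp only [Finset.sum_boole]
          congr 2
          ext e; simp
        rw [e1, e2, Finset.mul_sum, Finset.mul_sum, ← Finset.sum_add_distrib, Finset.mul_sum,
          ← Finset.sum_sub_distrib]
        rw [Finset.sum_const_zero, zero_add, Finset.mul_sum]
        refine Finset.sum_congr rfl fun e _ => ?_
        unfold ce
        by_cases he : e ∈ F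
        · have h0 : ψ e = 0 := (hψ1 e).2 (by simpa using he)
          by_cases a : G.t e ∈ X <;> by_cases b : G.h e ∈ X <;> simp [a, b, he, cut, h0] <;> ring
        · rcases (hψ1 e).1 (by simpa using he) with h | h <;>
          by_cases a : G.t e ∈ X <;> by_cases b : G.h e ∈ X <;> simp [a, b, he, cut, h] <;> ring
      have := hq X
      linarith)
  refine ⟨φ₂, φ₄, ⟨⟨fun e => ?_, G.isFlow_of_net h22⟩, ⟨fun e => ?_, G.isFlow_of_net h42⟩,
    fun e he => ?_⟩, fun e => ?_⟩
  · by_cases he : e ∈ F
    · rcases (h21 e).1 he with h | h <;> rw [h] <;> simp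
    · rw [(h21 e).2 he]; simp
  · have h1 := h41 e
    have hp' : (0 : ℤ) ≤ p := Int.natCast_nonneg p
    have hq' : (0 : ℤ) ≤ q := Int.natCast_nonneg q
    rw [abs_le]
    push_cast
    split_ifs at h1 <;> constructor <;> linarith [h1.1, h1.2]
  · have he' : e ∉ F := by
      intro heF
      rcases (h21 e).1 heF with h | h <;> rw [h] at he <;> simp at he
    have h1 := h41 e
    rw [if_neg he', if_neg he'] at h1
    rw [le_abs]
    split_ifs at h1
    · left; exact h1.1
    · right; linarith [h1.2]
  · constructor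
    · intro h
      by_contra he
      exact h ((h21 e).2 he)
    · intro he
      rcases (h21 e).1 he with h | h <;> rw [h] <;> simp

end Pool.Agent.W965.TFP
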